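import Pool.Agent.helper36.V3.SpecW
import Pool.Agent.helper75.PP.FD

set_option autoImplicit false

open Complex Metric Set Filter Topology MeasureTheory MPS Pool.Agent.helper98.ILF Pool.Agent.helper16.Multibrot

noncomputable section

namespace V3W

theorem FDQ (hFAQ : FAQ_stmt) (hCON : PPS.CON_stmt) (hZBC : MPS.ZBC_stmt) : FDQ_stmt := by
  intro n a δ hn ha hδ
  have hn0 : (0 : ℝ) < n := by
    have : 0 < n := by omega
    exact_mod_cast this
  have hK0 : 0 < 2 * (n : ℝ) / δ := by positivity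
  obtain ⟨ε, hε, hFA'⟩ := hFAQ n a (2 * n / δ) hn ha hK0
  refine ⟨ε, hε, ?_⟩
  intro f k z hf hz hρ hLε
  have hL0 : 0 < Real.log ‖PPS.mlt f k z‖ := Real.log_pos hρ
  by_contra hcon
  push Not at hcon
  have hex : ∀ m < n - 1, ∃ Z : ℂ → ℂ, DifferentiableOn ℂ Z (ball 0 δ) ∧ Z 0 = z ∧
      ∀ t ∈ ball (0 : ℂ) δ, PPS.Cyc (f + Polynomial.C t * Polynomial.X ^ m) k (Z t) := by
    intro m hm
    refine hCON n k m f δ hn hf.1 hm hz.1 hδ ?_ z hz
    intro t ht k' z' hc
    rw [mem_ball_zero_iff] at ht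
    exact hcon m t k' z' hm ht hc
  choose! Z hZ using hex
  have h1 := hFA' f k z δ Z hf hz hρ hLε hδ hZ
  have h2 : ∀ m ∈ Finset.range (n - 1),
      ‖deriv (fun t => PPS.mlt (f + Polynomial.C t * Polynomial.X ^ m) k (Z m t)) 0 / PPS.mlt f k z‖ ≤
      2 * Real.log ‖PPS.mlt f k z‖ / δ := by
    intro m hm
    rw [Finset.mem_range] at hm
    obtain ⟨hZd, hZ0, hZc⟩ := hZ m hm
    have hdiff := PPS.FD_mlt_diff f m (Z m) (ball 0 δ) hZd k
    have hat0 : PPS.mlt (f + Polynomial.C 0 * Polynomial.X ^ m) k (Z m 0) = PPS.mlt f k z := by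
      rw [hZ0]
      simp
    have hne : ∀ t ∈ ball (0 : ℂ) δ,
        ‖PPS.mlt (f + Polynomial.C t * Polynomial.X ^ m) k (Z m t)‖ ≠ 1 := by
      intro t ht
      have ht' := ht
      rw [mem_ball_zero_iff] at ht'
      exact hcon m t k (Z m t) hm ht' (hZc t ht)
    have hgt : ∀ t ∈ ball (0 : ℂ) δ,
        1 < ‖PPS.mlt (f + Polynomial.C t * Polynomial.X ^ m) k (Z m t)‖ := by
      intro t ht
      by_contra hle
      push Not at hle
      have h0 : (0 : ℂ) ∈ ball (0 : ℂ) δ := mem_ball_self hδ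
      have hiv := (convex_ball (0 : ℂ) δ).isPreconnected.intermediate_value ht h0
        (f := fun t => ‖PPS.mlt (f + Polynomial.C t * Polynomial.X ^ m) k (Z m t)‖)
        hdiff.continuousOn.norm
      have h1mem : (1 : ℝ) ∈ Icc ‖PPS.mlt (f + Polynomial.C t * Polynomial.X ^ m) k (Z m t)‖
          ‖PPS.mlt (f + Polynomial.C 0 * Polynomial.X ^ m) k (Z m 0)‖ := by
        refine ⟨hle, ?_⟩
        rw [hat0]
        exact hρ.le
      obtain ⟨s, hs, hs1⟩ := hiv h1mem
      exact hne s hs hs1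
    have h3 := hZBC (fun t => PPS.mlt (f + Polynomial.C t * Polynomial.X ^ m) k (Z m t)) 0 δ hδ
      hdiff hgt
    simp only [hat0] at h3
    exact h3
  have h3 : ∑ m ∈ Finset.range (n - 1),
      ‖deriv (fun t => PPS.mlt (f + Polynomial.C t * Polynomial.X ^ m) k (Z m t)) 0 / PPS.mlt f k z‖ ≤
      (n - 1 : ℕ) * (2 * Real.log ‖PPS.mlt f k z‖ / δ) := by
    refine (Finset.sum_le_sum h2).trans (le_of_eq ?_)
    rw [Finset.sum_const, Finset.card_range, nsmul_eq_mul]
  have h4 : ((n - 1 : ℕ) : ℝ) * (2 * Real.log ‖PPS.mlt f k z‖ / δ) <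
      n * (2 * Real.log ‖PPS.mlt f k z‖ / δ) := by
    apply mul_lt_mul_of_pos_right _ (by positivity)
    have : n - 1 < n := by omega
    exact_mod_cast this
  have h5 : 2 * (n : ℝ) / δ * Real.log ‖PPS.mlt f k z‖ = n * (2 * Real.log ‖PPS.mlt f k z‖ / δ) := by
    field_simp
  linarith

end V3W
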